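import Pool.Agent.N235.DH.Key

/-!
# Triangular systems of infinitely many equations in the group of Hamiltonian homeomorphisms
-/

set_option autoImplicit false

open Set Filter Topology Function
open Pool.Agent.Y453.HB
open Pool.Agent.Y309.HB
open Pool.Agent.N235.DH

namespace Pool.Agent.N235.HC

variable {n : ℕ}

/-- homeomorphisms -/
abbrev H (n : ℕ) : Type := E n ≃ₜ E n

/-- convergence of all the entries -/
def VConv {ι : Type} (u : ℕ → ι → H n) (g : ι → H n) : Prop := ∀ j, UConv (fun i => u i j) (g j)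

/-- words -/
theorem word_conv {K : Set (E n)} (hK : IsCompact K) {ι : Type} {a : ℕ → ι → H n} {b : ι → H n}
    (h : VConv a b) (w : FreeGroup ι) :
    UConv (fun i => FreeGroup.lift (a i) w) (FreeGroup.lift b w) := by
  induction w using FreeGroup.induction_on with
  | C1 =>
    simp only [map_one]
    exact uconv_const hK fun _ _ => rfl
  | of x =>
    simp only [FreeGroup.lift_apply_of]
    exact h x
  | inv_of x ih =>
    simp only [map_inv]
    exact uc_inv ih
  | mul x y hx hy =>
    simp only [map_mul]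
    exact uc_mul hx hy

theorem word_HK {K : Set (E n)} (hK : IsCompact K) {ι : Type} {a : ι → H n}
    (h : ∀ j, a j ∈ HK n K) (w : FreeGroup ι) : FreeGroup.lift a w ∈ HK n K := by
  induction w using FreeGroup.induction_on with
  | C1 =>
    rw [map_one]
    exact HK_one K
  | of x =>
    rw [FreeGroup.lift_apply_of]
    exact h x
  | inv_of x ih =>
    rw [map_inv]
    exact HK_inv hK ih
  | mul x y hx hy =>
    rw [map_mul]
    exact HK_mul hK hx hy

/-- the value of the word `w` for the coefficients `f` and the unknowns `y (k + 1)`,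
`y (k + 2)`, … -/
def val (k : ℕ) (w : FreeGroup (ℕ ⊕ ℕ)) (f : ℕ → H n) (y : ℕ → H n) : H n :=
  FreeGroup.lift (Sum.elim f fun j => y (k + 1 + j)) w

section

variable (w : ℕ → FreeGroup (ℕ ⊕ ℕ)) (x : ℕ → ℕ → H n)

/-- the index chosen in the step `m` -/
noncomputable def pick (m : ℕ) (s : (ℕ → H n) → ℕ → H n) : ℕ :=
  Classical.epsilon fun i => ∀ k ≤ m,
    (∀ p, dist (s (update (fun _ => 1) m (val m (w m) (x i) fun _ => 1)) k p) (s (fun _ => 1) k p) ≤
      (1 / 2) ^ m) ∧
    ∀ p, dist ((s (update (fun _ => 1) m (val m (w m) (x i) fun _ => 1)) k)⁻¹ p)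
      ((s (fun _ => 1) k)⁻¹ p) ≤ (1 / 2) ^ m

/-- the partial solutions: the unknowns with index `< m` are computed from the others -/
noncomputable def stp : ℕ → (ℕ → H n) → ℕ → H n
  | 0 => fun z => z
  | m + 1 => fun z => stp m (update z m (val m (w m) (x (pick w x m (stp m))) z))

/-- the chosen index -/
noncomputable def ix (m : ℕ) : ℕ := pick w x m (stp w x m)

theorem stp_succ (m : ℕ) (z : ℕ → H n) :
    stp w x (m + 1) z = stp w x m (update z m (val m (w m) (x (ix w x m)) z)) := rfl

theorem ix_def (m : ℕ) : ix w x m = Classical.epsilon fun i => ∀ k ≤ m,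
      (∀ p, dist (stp w x m (update (fun _ => 1) m (val m (w m) (x i) fun _ => 1)) k p)
        (stp w x m (fun _ => 1) k p) ≤ (1 / 2) ^ m) ∧
      ∀ p, dist ((stp w x m (update (fun _ => 1) m (val m (w m) (x i) fun _ => 1)) k)⁻¹ p)
        ((stp w x m (fun _ => 1) k)⁻¹ p) ≤ (1 / 2) ^ m := rfl

theorem stp_zero (z : ℕ → H n) : stp w x 0 z = z := rfl

attribute [irreducible] stp ix pick

/-- the unknowns with index `≥ m` are not changed -/
theorem stp_ge (m : ℕ) (z : ℕ → H n) (k : ℕ) (h : m ≤ k) : stp w x m z k = z k := by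
  induction m generalizing z with
  | zero => rw [stp_zero]
  | succ m ih =>
    rw [stp_succ, ih _ (by omega), update_of_ne (by omega)]

theorem val_congr (k : ℕ) (v : FreeGroup (ℕ ⊕ ℕ)) (f y y' : ℕ → H n)
    (h : ∀ j, k < j → y j = y' j) : val k v f y = val k v f y' := by
  unfold val
  congr 2
  funext s
  cases s with
  | inl j => rfl
  | inr j => exact h _ (by omega)

/-- the equations for the partial solutions -/
theorem stp_eq (m : ℕ) (z : ℕ → H n) (k : ℕ) (h : k < m) :
    stp w x m z k = val k (w k) (x (ix w x k)) (stp w x m z) := by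
  induction m generalizing z with
  | zero => omega
  | succ m ih =>
    rw [stp_succ]
    rcases Nat.lt_succ_iff_lt_or_eq.1 h with h1 | h1
    · exact ih _ h1
    · subst h1
      rw [stp_ge w x k _ k le_rfl, update_self]
      refine val_congr k _ _ _ _ fun j hj => ?_
      rw [stp_ge w x k _ j hj.le, update_of_ne (by omega)]

theorem val_def (k : ℕ) (v : FreeGroup (ℕ ⊕ ℕ)) (f y : ℕ → H n) :
    val k v f y = FreeGroup.lift (Sum.elim f fun j => y (k + 1 + j)) v := rfl

theorem val_conv {K : Set (E n)} (hK : IsCompact K) (k : ℕ) (v : FreeGroup (ℕ ⊕ ℕ))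
    {f : ℕ → ℕ → H n} {f' : ℕ → H n} (hf : VConv f f') {u : ℕ → ℕ → H n} {g : ℕ → H n}
    (h : VConv u g) : UConv (fun i => val k v (f i) (u i)) (val k v f' g) := by
  simp only [val_def]
  refine word_conv hK (fun s => ?_) v
  cases s with
  | inl j => exact hf j
  | inr j => exact h _

theorem stp_conv {K : Set (E n)} (hK : IsCompact K) (hx : ∀ i j, x i j ∈ HK n K) (m : ℕ)
    {u : ℕ → ℕ → H n} {g : ℕ → H n} (h : VConv u g) :
    VConv (fun i => stp w x m (u i)) (stp w x m g) := by
  induction m generalizing u g with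
  | zero =>
    simp only [stp_zero]
    exact h
  | succ m ih =>
    have hX : VConv (fun _ : ℕ => x (ix w x m)) (x (ix w x m)) :=
      fun j => uconv_const hK (hx (ix w x m) j).1
    have h2 : VConv (fun i => update (u i) m (val m (w m) (x (ix w x m)) (u i)))
        (update g m (val m (w m) (x (ix w x m)) g)) := by
      intro j
      by_cases hj : j = m
      · subst hj
        simp only [update_self]
        exact val_conv hK _ _ hX h
      · simp only [update_of_ne hj]
        exact h j
    have h3 := ih h2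
    simp only [stp_succ]
    exact h3

theorem stp_HK {K : Set (E n)} (hK : IsCompact K) (hx : ∀ i j, x i j ∈ HK n K) (m : ℕ)
    {z : ℕ → H n} (hz : ∀ j, z j ∈ HK n K) (k : ℕ) : stp w x m z k ∈ HK n K := by
  induction m generalizing z with
  | zero => rw [stp_zero]; exact hz k
  | succ m ih =>
    rw [stp_succ]
    refine ih fun j => ?_
    by_cases hj : j = m
    · subst hj
      rw [update_self, val_def]
      refine word_HK hK (fun s => ?_) _
      cases s with
      | inl i => exact hx _ _
      | inr i => exact hz _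
    · rw [update_of_ne hj]
      exact hz j

theorem val_one (k : ℕ) (v : FreeGroup (ℕ ⊕ ℕ)) :
    val k v (fun _ => (1 : H n)) (fun _ => 1) = 1 := by
  unfold val
  have h1 : (Sum.elim (fun _ : ℕ => (1 : H n)) fun _ : ℕ => (1 : H n)) = fun _ => 1 := by
    funext s
    cases s <;> rfl
  rw [h1]
  induction v using FreeGroup.induction_on with
  | C1 => rw [map_one]
  | of x => rw [FreeGroup.lift_apply_of]
  | inv_of x ih => rw [map_inv, ih, inv_one]
  | mul x y hx hy => rw [map_mul, hx, hy, one_mul]

theorem ix_spec {K : Set (E n)} (hK : IsCompact K) (hx : ∀ i j, x i j ∈ HK n K)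
    (hx1 : VConv x fun _ => 1) (m : ℕ) : ∀ k ≤ m,
    (∀ p, dist (stp w x (m + 1) (fun _ => 1) k p) (stp w x m (fun _ => 1) k p) ≤ (1 / 2) ^ m) ∧
    ∀ p, dist ((stp w x (m + 1) (fun _ => 1) k)⁻¹ p) ((stp w x m (fun _ => 1) k)⁻¹ p) ≤
      (1 / 2) ^ m := by
  have key : ∃ i, ∀ k ≤ m,
      (∀ p, dist (stp w x m (update (fun _ => 1) m (val m (w m) (x i) fun _ => 1)) k p)
        (stp w x m (fun _ => 1) k p) ≤ (1 / 2) ^ m) ∧
      ∀ p, dist ((stp w x m (update (fun _ => 1) m (val m (w m) (x i) fun _ => 1)) k)⁻¹ p)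
        ((stp w x m (fun _ => 1) k)⁻¹ p) ≤ (1 / 2) ^ m := by
    have hp : (0 : ℝ) < (1 / 2) ^ m := by positivity
    have hone : VConv (fun _ : ℕ => fun _ : ℕ => (1 : H n)) fun _ => 1 :=
      fun j => uconv_const hK fun _ _ => rfl
    have h0 : VConv (fun i => update (fun _ => (1 : H n)) m (val m (w m) (x i) fun _ => 1))
        fun _ => 1 := by
      intro j
      by_cases hj : j = m
      · subst hj
        simp only [update_self]
        have h1 := val_conv hK j (w j) hx1 hone
        rwa [val_one] at h1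
      · simp only [update_of_ne hj]
        exact hone j
    have h1 : ∀ k, ∀ᶠ i in atTop,
        (∀ p, dist (stp w x m (update (fun _ => 1) m (val m (w m) (x i) fun _ => 1)) k p)
          (stp w x m (fun _ => 1) k p) ≤ (1 / 2) ^ m) ∧
        ∀ p, dist ((stp w x m (update (fun _ => 1) m (val m (w m) (x i) fun _ => 1)) k)⁻¹ p)
          ((stp w x m (fun _ => 1) k)⁻¹ p) ≤ (1 / 2) ^ m := by
      intro k
      have h2 := stp_conv w x hK hx m h0 k
      have h3 := Metric.tendstoUniformly_iff.1 h2.1 _ hp
      have h4 := Metric.tendstoUniformly_iff.1 (uc_inv h2).1 _ hp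
      filter_upwards [h3, h4] with i hi hi'
      refine ⟨fun p => ?_, fun p => ?_⟩
      · rw [dist_comm]; exact (hi p).le
      · rw [dist_comm]; exact (hi' p).le
    have h2 := (Set.finite_Iic m).eventually_all.2 fun k _ => h1 k
    exact h2.exists
  simp only [stp_succ]
  have h5 := Classical.epsilon_spec key
  have h6 : ix w x m = Classical.epsilon fun i => ∀ k ≤ m,
      (∀ p, dist (stp w x m (update (fun _ => 1) m (val m (w m) (x i) fun _ => 1)) k p)
        (stp w x m (fun _ => 1) k p) ≤ (1 / 2) ^ m) ∧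
      ∀ p, dist ((stp w x m (update (fun _ => 1) m (val m (w m) (x i) fun _ => 1)) k)⁻¹ p)
        ((stp w x m (fun _ => 1) k)⁻¹ p) ≤ (1 / 2) ^ m := by
    rw [ix_def]
  rw [← h6] at h5
  exact h5

end

theorem lim_eq {K : Set (E n)} (hK : IsCompact K) (k : ℕ) (v : FreeGroup (ℕ ⊕ ℕ)) (f : ℕ → H n)
    (hf : ∀ j, f j ∈ HK n K) (Y : ℕ → ℕ → H n) (y : ℕ → H n) (hY : VConv Y y)
    (he : ∀ m, k < m → Y m k = val k v f (Y m)) : y k = val k v f y := by
  have hF : VConv (fun _ : ℕ => f) f := fun j => uconv_const hK (hf j).1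
  have h1 : UConv (fun m => val k v f (Y m)) (val k v f y) := val_conv hK k v hF hY
  have h0 := hY k
  refine Homeomorph.ext fun p => ?_
  have t1 : Tendsto (fun m => Y m k p) atTop (𝓝 (y k p)) := h0.1.tendsto_at p
  have t2 : Tendsto (fun m => val k v f (Y m) p) atTop (𝓝 (val k v f y p)) := h1.1.tendsto_at p
  have t3 : (fun m => val k v f (Y m) p) =ᶠ[atTop] fun m => Y m k p := by
    filter_upwards [eventually_ge_atTop (k + 1)] with m hm
    rw [← he m hm]
  exact tendsto_nhds_unique t1 (t2.congr' t3)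

/-- **Triangular systems.** Let `x i j → 1` for all `j` in the group `HK n K`. For suitable indices
`i k` the system of the equations `y k = w k (x (i k); y (k + 1), y (k + 2), …)` has a solution. -/
theorem key {K : Set (E n)} (hK : IsCompact K) (w : ℕ → FreeGroup (ℕ ⊕ ℕ)) (x : ℕ → ℕ → H n)
    (hx : ∀ i j, x i j ∈ HK n K) (hx1 : VConv x fun _ => 1) :
    ∃ (i : ℕ → ℕ) (y : ℕ → H n), (∀ k, y k ∈ HK n K) ∧ ∀ k, y k = val k (w k) (x (i k)) y := by
  have hspec := ix_spec w x hK hx hx1
  have hW : ∀ m k, stp w x m (fun _ => 1) k ∈ HK n K := fun m k =>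
    stp_HK w x hK hx m (fun _ => HK_one K) k
  have heq : ∀ k m, k < m → stp w x m (fun _ => 1) k =
      val k (w k) (x (ix w x k)) (stp w x m fun _ => 1) := fun k m h => stp_eq w x m _ k h
  generalize hYd : (fun m => stp w x m fun _ => (1 : H n)) = Y at *
  have hYd' : ∀ m, stp w x m (fun _ => (1 : H n)) = Y m := fun m => congrFun hYd m
  simp only [hYd'] at hspec hW heq
  have hlim : ∀ k, ∃ y : H n, (∀ p, p ∉ K → y p = p) ∧ UConv (fun m => Y m k) y := by
    intro k
    exact exists_limit hK (fun m => Y m k) (fun m => (hW m k).1) k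
      (fun m hm p => (hspec m k hm).1 p) (fun m hm p => (hspec m k hm).2 p)
  choose y hy1 hy2 using hlim
  refine ⟨ix w x, y, fun k => ?_, fun k => ?_⟩
  · exact HK_closed (fun m => hW m k) (hy1 k) (hy2 k).1
  · exact lim_eq hK k (w k) (x (ix w x k)) (hx _) Y y hy2 (heq k)

end Pool.Agent.N235.HC
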